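import Mathlib

/-!
# QD-F1: entire quotients

PLAN. `g` is entire and not identically zero, so at every point its order is finite
(`AnalyticOnNhd.eqOn_zero_of_preconnected_of_eventuallyEq_zero`).  At `z`: `f = (· - z)^m f1`,
`g = (· - z)^n g1`, `g1 z ≠ 0`, `n ≤ m` (`analyticOrderAt`), so near `z` the function
`h_z = (· - z)^(m-n) f1/g1` is analytic and `f = g h_z`.  Define `h s` = value at `s` of the local
function `h_s` (choice) or `h = limUnder (𝓝[≠] s) (f/g)`; two local functions agree on the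
overlap outside the zeros of `g`, hence everywhere.  Mathlib: `MeromorphicAt`,
`toMeromorphicNFOn`, `MeromorphicNFAt` of nonnegative order is analytic: `f/g` meromorphic on
`univ`, `h = toMeromorphicNFOn (f/g) univ`, order `≥ 0` everywhere, so analytic everywhere.
-/

namespace Pool.Agent.QD

open Filter Topology

theorem entire_quot {f g : ℂ → ℂ} (hf : Differentiable ℂ f) (hg : Differentiable ℂ g)
    (hg0 : ∃ s, g s ≠ 0) (ho : ∀ z : ℂ, analyticOrderAt g z ≤ analyticOrderAt f z) :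
    ∃ h : ℂ → ℂ, Differentiable ℂ h ∧ ∀ s : ℂ, f s = g s * h s := by
  have hfa : ∀ z, AnalyticAt ℂ f z := fun z => hf.analyticAt z
  have hga : ∀ z, AnalyticAt ℂ g z := fun z => hg.analyticAt z
  have hloc : ∀ z : ℂ, ∃ φ : ℂ → ℂ, AnalyticAt ℂ φ z ∧ (∀ᶠ w in 𝓝 z, f w = g w * φ w) ∧
      ∀ᶠ w in 𝓝[≠] z, g w ≠ 0 := by
    intro z
    have hfin : analyticOrderAt g z ≠ ⊤ := by
      intro htop
      rw [analyticOrderAt_eq_top] at htop
      obtain ⟨s, hs⟩ := hg0
      have h1 : AnalyticOnNhd ℂ g Set.univ := fun w _ => hga w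
      have h2 := h1.eqOn_zero_of_preconnected_of_eventuallyEq_zero isPreconnected_univ
        (Set.mem_univ z) htop
      exact hs (h2 (Set.mem_univ s))
    obtain ⟨n, hn⟩ := ENat.ne_top_iff_exists.1 hfin
    obtain ⟨g1, hg1, hg1z, hg1e⟩ := (hga z).analyticOrderAt_eq_natCast.1 hn.symm
    have hno : (n : ℕ∞) ≤ analyticOrderAt f z := by
      rw [hn]
      exact ho z
    obtain ⟨f2, hf2, hf2e⟩ := (natCast_le_analyticOrderAt (hfa z)).1 hno
    have hne : ∀ᶠ w in 𝓝 z, g1 w ≠ 0 := hg1.continuousAt.eventually_ne hg1z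
    refine ⟨fun w => f2 w / g1 w, hf2.div hg1 hg1z, ?_, ?_⟩
    · filter_upwards [hg1e, hf2e, hne] with w h1 h2 h3
      rw [h1, h2]
      simp only [smul_eq_mul]
      field_simp
    · rw [eventually_nhdsWithin_iff]
      filter_upwards [hg1e, hne] with w h1 h3 hw
      rw [h1]
      exact smul_ne_zero (pow_ne_zero n (sub_ne_zero.2 hw)) h3
  have hnz : ∀ z : ℂ, ∀ᶠ w in 𝓝[≠] z, g w ≠ 0 := fun z => by
    obtain ⟨φ, -, -, h⟩ := hloc z
    exact h
  have hlim : ∀ (z : ℂ) (φ : ℂ → ℂ), AnalyticAt ℂ φ z → (∀ᶠ w in 𝓝 z, f w = g w * φ w) →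
      limUnder (𝓝[≠] z) (fun w => f w / g w) = φ z := by
    intro z φ hφ he
    apply Tendsto.limUnder_eq
    have h1 : Tendsto φ (𝓝[≠] z) (𝓝 (φ z)) := hφ.continuousAt.tendsto.mono_left nhdsWithin_le_nhds
    refine h1.congr' ?_
    filter_upwards [hnz z, he.filter_mono nhdsWithin_le_nhds] with w h2 h3
    rw [h3]
    field_simp
  refine ⟨fun s => limUnder (𝓝[≠] s) (fun w => f w / g w), fun z => ?_, fun z => ?_⟩
  · obtain ⟨φ, hφ, he, -⟩ := hloc z
    refine hφ.differentiableAt.congr_of_eventuallyEq ?_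
    filter_upwards [hφ.eventually_analyticAt, he.eventually_nhds] with w h1 h2
    exact hlim w φ h1 h2
  · obtain ⟨φ, hφ, he, -⟩ := hloc z
    simp only
    rw [hlim z φ hφ he]
    exact he.self_of_nhds

end Pool.Agent.QD
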