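import Pool.Agent.QD.A.Pole
import Pool.Agent.QD.Inst

/-!
# QD-F6: from the completed function of `K` to `PoleD`

PLAN. `Lo t = h0 t * E t`,
`E t = pl t / (A^(t/2) gam1 t ^ n) * ∏_{v ∈ F} (1 - a q q^(-t) + q^(1-2t))`, `q = nrm v`,
`n = finrank ℚ K`, `A = D.A K > 0`, `pl = D.pl K`.
`E` is differentiable on `Re t > 0` (`Complex.Gamma` is differentiable and nonzero there; `pl` is
a finite product of polynomials in `p^(-t)`).  `E t ≠ 0` for `Re t > 1/2`: `pol_root`: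
`‖p^(-t)‖ = p^(-Re t) < p^(-1/2)`; and for `Re t ≥ 3/4`... only needed at `t0` (`Re t0 = 1`):
`‖a q q^(-t0)‖ ≤ 2/√q`, `‖q^(1-2 t0)‖ = 1/q`, `q ≥ 101` (places away from `T`:
`nrm_ge` in HWR).
For `Re t > 3/2`: `h0 t E t = (t-t0)^k D.Lam a K t E t = (t-t0)^k LT / ∏ efac = (t-t0)^k Ls t`
(`efac ≠ 0`: its inverse is a number; if `1 - a q q^(-t) + q^(1-2t) ≠ 0` for `Re t > 3/2`, same
estimate).
-/

namespace Pool.Agent.QD

open NumberField IsDedekindDomain Pool.Agent.HWR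

open scoped TensorProduct

private theorem mkp_cd_pos (K : Type) [Field K] [NumberField K] {T : Finset ℕ} (D : LocData T) :
    0 < D.cd K := by
  classical
  unfold LocData.cd
  refine Finset.prod_pos fun p hp => ?_
  split_ifs with h
  · haveI := Fact.mk h
    exact D.cond_pos p (ℚ_[p] ⊗[ℚ] K)
  · exact one_pos

private theorem mkp_A_pos (K : Type) [Field K] [NumberField K] {T : Finset ℕ} (D : LocData T) :
    0 < D.A K := by
  unfold LocData.A
  have h1 : (NumberField.discr K : ℝ) ≠ 0 := by exact_mod_cast NumberField.discr_ne_zero K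
  have h2 := mkp_cd_pos K D
  positivity

private theorem mkp_pl_ne (K : Type) [Field K] [NumberField K] {T : Finset ℕ} (D : LocData T)
    {t : ℂ} (ht : 1 / 2 < t.re) : D.pl K t ≠ 0 := by
  classical
  unfold LocData.pl
  refine Finset.prod_ne_zero_iff.2 fun p hp => ?_
  split_ifs with h
  · haveI := Fact.mk h
    intro h0
    have h1 := D.pol_root p (ℚ_[p] ⊗[ℚ] K) _ h0
    have hp0 : 0 < p := h.pos
    rw [Complex.norm_natCast_cpow_of_pos hp0, Complex.neg_re] at h1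
    have hp1 : (1 : ℝ) < p := by exact_mod_cast h.one_lt
    rw [Real.rpow_le_rpow_left_iff hp1] at h1
    linarith
  · exact one_ne_zero

private theorem mkp_pl_diff (K : Type) [Field K] [NumberField K] {T : Finset ℕ} (D : LocData T) :
    Differentiable ℂ (D.pl K) := by
  classical
  unfold LocData.pl
  refine Differentiable.fun_finset_prod fun p hp => ?_
  split_ifs with h
  · haveI := Fact.mk h
    have hp0 : (p : ℂ) ≠ 0 := by exact_mod_cast h.ne_zero
    have h2 : Differentiable ℂ (fun s : ℂ => (p : ℂ) ^ (-s)) := by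
      intro s
      exact (differentiableAt_id.neg).const_cpow (Or.inl hp0)
    exact Differentiable.fun_comp (Polynomial.differentiable _) h2
  · exact differentiable_const _

private theorem mkp_quad_ne {a : ℕ → ℝ} (ha : ∀ q : ℕ, |a q| ≤ 2 * Real.sqrt q) {q : ℕ}
    (hq : 101 ≤ q) {t : ℂ} (ht : 1 ≤ t.re) :
    1 - (a q : ℂ) * (q : ℂ) ^ (-t) + (q : ℂ) ^ (1 - 2 * t) ≠ 0 := by
  have hq0 : 0 < q := by omega
  have hq1 : (1 : ℝ) ≤ q := by exact_mod_cast hq0
  have hq2 : (101 : ℝ) ≤ q := by exact_mod_cast hq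
  have hqp : (0 : ℝ) < q := by linarith
  intro h0
  have h1 : ‖(a q : ℂ) * (q : ℂ) ^ (-t)‖ ≤ 2 * Real.sqrt q * (q : ℝ)⁻¹ := by
    rw [norm_mul, Complex.norm_natCast_cpow_of_pos hq0, Complex.norm_real, Real.norm_eq_abs,
      Complex.neg_re]
    refine mul_le_mul (ha q) ?_ (by positivity) (by positivity)
    rw [← Real.rpow_neg_one]
    exact Real.rpow_le_rpow_of_exponent_le hq1 (by linarith)
  have h2 : ‖(q : ℂ) ^ (1 - 2 * t)‖ ≤ (q : ℝ)⁻¹ := by
    rw [Complex.norm_natCast_cpow_of_pos hq0, ← Real.rpow_neg_one]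
    refine Real.rpow_le_rpow_of_exponent_le hq1 ?_
    simp
    linarith
  have h3 : 2 * Real.sqrt q * (q : ℝ)⁻¹ ≤ 1 / 2 := by
    have h4 : Real.sqrt q * Real.sqrt q = q := Real.mul_self_sqrt hqp.le
    have h5 : 10 ≤ Real.sqrt q := by
      rw [show (10 : ℝ) = Real.sqrt 100 by
        rw [show (100 : ℝ) = 10 ^ 2 by norm_num, Real.sqrt_sq (by norm_num)]]
      exact Real.sqrt_le_sqrt (by linarith)
    rw [← div_eq_mul_inv, div_le_iff₀ hqp]
    nlinarith
  have h4 : (q : ℝ)⁻¹ ≤ 1 / 101 := by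
    rw [one_div]
    exact inv_anti₀ (by norm_num) hq2
  have h5 : (1 : ℂ) = (a q : ℂ) * (q : ℂ) ^ (-t) - (q : ℂ) ^ (1 - 2 * t) := by
    linear_combination h0
  have h6 : (1 : ℝ) ≤ ‖(a q : ℂ) * (q : ℂ) ^ (-t)‖ + ‖(q : ℂ) ^ (1 - 2 * t)‖ := by
    calc (1 : ℝ) = ‖(1 : ℂ)‖ := norm_one.symm
      _ = ‖(a q : ℂ) * (q : ℂ) ^ (-t) - (q : ℂ) ^ (1 - 2 * t)‖ := by rw [← h5]
      _ ≤ _ := norm_sub_le _ _
  linarith

private theorem mkp_quad_diff (a : ℕ → ℝ) {q : ℕ} (hq : q ≠ 0) :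
    Differentiable ℂ fun t : ℂ => 1 - (a q : ℂ) * (q : ℂ) ^ (-t) + (q : ℂ) ^ (1 - 2 * t) := by
  have hq0 : (q : ℂ) ≠ 0 := by exact_mod_cast hq
  intro t
  refine ((differentiableAt_const _).sub ((differentiableAt_const _).mul ?_)).add ?_
  · exact (differentiableAt_id.neg).const_cpow (Or.inl hq0)
  · exact ((differentiableAt_const _).sub ((differentiableAt_const _).mul
      differentiableAt_id)).const_cpow (Or.inl hq0)

private theorem mkp_gam_ne {t : ℂ} (ht : 0 < t.re) : gam1 t ≠ 0 := by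
  unfold gam1
  refine mul_ne_zero ?_ (Complex.Gamma_ne_zero_of_re_pos ht)
  have h : (2 * (Real.pi : ℂ)) ≠ 0 := by
    have := Real.pi_ne_zero
    exact mul_ne_zero two_ne_zero (by exact_mod_cast this)
  rw [Complex.cpow_def_of_ne_zero h]
  exact Complex.exp_ne_zero _

private theorem mkp_gam_diff {t : ℂ} (ht : 0 < t.re) : DifferentiableAt ℂ gam1 t := by
  unfold gam1
  have h : (2 * (Real.pi : ℂ)) ≠ 0 := by
    have := Real.pi_ne_zero
    exact mul_ne_zero two_ne_zero (by exact_mod_cast this)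
  refine ((differentiableAt_id.neg).const_cpow (Or.inl h)).mul ?_
  refine Complex.differentiableAt_Gamma t fun m hm => ?_
  rw [hm] at ht
  simp at ht
  have : (0 : ℝ) ≤ (m : ℝ) := Nat.cast_nonneg m
  linarith

/-- places away from `T` have norm at least `101` -/
theorem nrm_away (K : Type) [Field K] [NumberField K] (T : Finset ℕ)
    (hT : ∀ p : ℕ, p.Prime → p < 101 → p ∈ T) (v : HeightOneSpectrum (𝓞 K)) (hv : Away K T v) :
    101 ≤ nrm v := by
  have hv1 : v.asIdeal ≠ ⊤ := v.isPrime.ne_top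
  have key : ∀ n : ℕ, n ≠ 0 → ((n : ℕ) : 𝓞 K) ∈ v.asIdeal →
      ∃ p : ℕ, p.Prime ∧ p ∣ n ∧ ((p : ℕ) : 𝓞 K) ∈ v.asIdeal := by
    intro n
    induction n using Nat.strong_induction_on with
    | _ n ih =>
      intro hn hmem
      have hn1 : n ≠ 1 := by
        rintro rfl
        rw [Nat.cast_one] at hmem
        exact hv1 ((Ideal.eq_top_iff_one _).2 hmem)
      have hp := Nat.minFac_prime hn1
      obtain ⟨m, hm⟩ := Nat.minFac_dvd n
      have hm0 : m ≠ 0 := by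
        rintro rfl
        rw [mul_zero] at hm
        exact hn hm
      have hmlt : m < n := by
        have h2 := hp.two_le
        have h3 : 0 < m := Nat.pos_of_ne_zero hm0
        calc m < 2 * m := by omega
          _ ≤ n.minFac * m := Nat.mul_le_mul_right m h2
          _ = n := hm.symm
      rw [hm, Nat.cast_mul] at hmem
      rcases v.isPrime.mem_or_mem hmem with h | h
      · exact ⟨n.minFac, hp, Nat.minFac_dvd n, h⟩
      · obtain ⟨p, hp1, hp2, hp3⟩ := ih m hmlt hm0 h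
        exact ⟨p, hp1, hp2.trans ⟨n.minFac, by rw [mul_comm]; exact hm⟩, hp3⟩
  have hn0 : nrm v ≠ 0 := by
    unfold nrm
    rw [Ne, Ideal.absNorm_eq_zero_iff]
    exact v.ne_bot
  obtain ⟨p, hp1, hp2, hp3⟩ := key (nrm v) hn0 (Ideal.absNorm_mem v.asIdeal)
  have hpT : p ∉ T := fun h => hv p h hp3
  have hp101 : 101 ≤ p := by
    by_contra h
    exact hpT (hT p hp1 (by omega))
  exact hp101.trans (Nat.le_of_dvd (Nat.pos_of_ne_zero hn0) hp2)

theorem w_ne (K : Type) [Field K] [NumberField K] (T : Finset ℕ) (D : LocData T) :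
    D.w K ≠ 0 := by
  classical
  unfold LocData.w
  refine mul_ne_zero (pow_ne_zero _ (by norm_num)) ?_
  have h : D.sg K ≠ 0 := by
    unfold LocData.sg
    refine Finset.prod_ne_zero_iff.2 fun p hp => ?_
    split_ifs with h
    · haveI := Fact.mk h
      rcases D.sgn_sq p (ℚ_[p] ⊗[ℚ] K) with h1 | h1
      · rw [h1]
        norm_num
      · rw [h1]
        norm_num
    · exact one_ne_zero
  exact_mod_cast h

theorem mk_pole (K : Type) [Field K] [NumberField K] (T : Finset ℕ) (hTp : ∀ p ∈ T, p.Prime)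
    (hT : ∀ p : ℕ, p.Prime → p < 101 → p ∈ T) (D : LocData T) (a : ℕ → ℝ)
    (ha : ∀ q : ℕ, |a q| ≤ 2 * Real.sqrt q) (S : SysD) (F : Finset (HeightOneSpectrum (𝓞 K)))
    (hF : ∀ v ∈ F, Away K T v)
    (hLs : ∀ s : ℂ, 3 / 2 < s.re → LT K a T s = S.Ls s * ∏ v ∈ F, efac a (nrm v) s)
    (R : ℂ → ℂ) (hR : ∀ s : ℂ, 3 / 2 < s.re → R s = D.Lam a K s) {t0 : ℂ} (ht0 : t0.re = 1)
    {k : ℕ} {r : ℝ} {h0 : ℂ → ℂ} (hk : 1 ≤ k) (hr : 0 < r) (hr' : r ≤ 1 / 4) (hne : h0 t0 ≠ 0)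
    (hd : DifferentiableOn ℂ h0 {t : ℂ | |(t - t0).im| < r ∧ t0.re - r < t.re})
    (heq : ∀ t : ℂ, |(t - t0).im| < r → 1 < t.re → h0 t = (t - t0) ^ k * R t) :
    ∃ Tp : PoleD, IsPole S Tp ∧ Tp.t0 = t0 := by
  have hA : ((D.A K : ℝ) : ℂ) ≠ 0 := by exact_mod_cast (mkp_A_pos K D).ne'
  have hq : ∀ v ∈ F, 101 ≤ nrm v := fun v hv => nrm_away K T hT v (hF v hv)
  obtain ⟨E, hE⟩ : ∃ E : ℂ → ℂ, E = fun t => D.pl K t *
      (((D.A K : ℝ) : ℂ) ^ (t / 2) * gam1 t ^ Module.finrank ℚ K)⁻¹ *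
      ∏ v ∈ F, (1 - (a (nrm v) : ℂ) * (nrm v : ℂ) ^ (-t) + (nrm v : ℂ) ^ (1 - 2 * t)) := ⟨_, rfl⟩
  have hpow : ∀ t : ℂ, ((D.A K : ℝ) : ℂ) ^ (t / 2) ≠ 0 := fun t => by
    rw [Complex.cpow_def_of_ne_zero hA]
    exact Complex.exp_ne_zero _
  have hden : ∀ t : ℂ, 0 < t.re →
      ((D.A K : ℝ) : ℂ) ^ (t / 2) * gam1 t ^ Module.finrank ℚ K ≠ 0 := fun t ht =>
    mul_ne_zero (hpow t) (pow_ne_zero _ (mkp_gam_ne ht))
  have hEd : ∀ t : ℂ, 0 < t.re → DifferentiableAt ℂ E t := by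
    intro t ht
    rw [hE]
    refine ((mkp_pl_diff K D t).mul (DifferentiableAt.inv ?_ (hden t ht))).mul ?_
    · exact ((differentiableAt_id.div_const 2).const_cpow (Or.inl hA)).mul
        ((mkp_gam_diff ht).pow _)
    · refine DifferentiableAt.fun_finset_prod fun v hv => ?_
      have := hq v hv
      exact mkp_quad_diff a (q := nrm v) (by omega) t
  have hEne : ∀ t : ℂ, 1 ≤ t.re → E t ≠ 0 := by
    intro t ht
    rw [hE]
    refine mul_ne_zero (mul_ne_zero (mkp_pl_ne K D (by linarith))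
      (inv_ne_zero (hden t (by linarith)))) ?_
    exact Finset.prod_ne_zero_iff.2 fun v hv => mkp_quad_ne ha (hq v hv) ht
  refine ⟨⟨t0, k, r, fun t => h0 t * E t⟩, ⟨hr, hk, ?_, ?_, ?_, ?_⟩, rfl⟩
  · rw [ht0]
    norm_num
  · intro t ht
    have h1 : 0 < t.re := by
      have h2 : t0.re - r < t.re := ht.2
      linarith
    exact (hd t ht).mul (hEd t h1).differentiableWithinAt
  · exact mul_ne_zero hne (hEne t0 (by rw [ht0]))
  · intro t ht ht'
    have h1 : h0 t = (t - t0) ^ k * R t := heq t ht.1 (by linarith)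
    change h0 t * E t = (t - t0) ^ k * S.Ls t
    rw [h1, hR t ht']
    have h2 := hLs t ht'
    have h3 : (∏ v ∈ F, efac a (nrm v) t) *
        ∏ v ∈ F, (1 - (a (nrm v) : ℂ) * (nrm v : ℂ) ^ (-t) + (nrm v : ℂ) ^ (1 - 2 * t)) = 1 := by
      rw [← Finset.prod_mul_distrib]
      refine Finset.prod_eq_one fun v hv => ?_
      unfold efac
      exact inv_mul_cancel₀ (mkp_quad_ne ha (hq v hv) (by linarith))
    have h4 := hden t (by linarith)
    have h5 := mkp_pl_ne K D (t := t) (by linarith)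
    have h6 : S.Ls t = LT K a T t *
        ∏ v ∈ F, (1 - (a (nrm v) : ℂ) * (nrm v : ℂ) ^ (-t) + (nrm v : ℂ) ^ (1 - 2 * t)) := by
      rw [h2, mul_assoc, h3, mul_one]
    rw [h6, hE]
    unfold LocData.Lam
    simp only
    generalize ((D.A K : ℝ) : ℂ) ^ (t / 2) * gam1 t ^ Module.finrank ℚ K = X at h4 ⊢
    field_simp

end Pool.Agent.QD
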