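import Pool.Agent.HWR.Defs

/-!
# QD-F5: growth of an entire quotient

PLAN. `f = g h`, all entire, `f`, `g` of finite order in strips, `‖g s‖ ≥ c exp (-(1+|Im s|)^k)` on
`Re s = 3`.  Given `a ≤ b`; let `R = |a| + |b| + 10`, `s` with `a ≤ Re s ≤ b`, `s0 = 3 + i Im s`,
so `D(s, 1) ⊆ D(s0, R)`.
(1) subharmonicity: `log ‖h s‖ ≤ ` mean over the disc `D(s,1)` of `log⁺ ‖h‖`, and the disc mean
over `D(s,1)` is at most `R^2` times the disc mean over `D(s0,R)` (`log⁺ ≥ 0`).
(2) `log⁺ ‖h‖ ≤ log⁺ ‖f‖ + log⁺ ‖g⁻¹‖` a.e.; `log⁺ ‖g⁻¹‖ = log⁺ ‖g‖ - log ‖g‖`; the circle mean of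
`log ‖g‖` over circles around `s0` is `≥ log ‖g s0‖ ≥ log c - (1+|Im s|)^k` (Jensen again).
(3) `log⁺ ‖f‖, log⁺ ‖g‖ ≤ |C| (1 + |Im s| + R)^|A|` on `D(s0,R)` (FinOrd on the strip
`3 - R ≤ Re ≤ 3 + R`).
-/

namespace Pool.Agent.QD

open Pool.Agent.HWR (FinOrd)
open MeasureTheory Metric Set Filter Real

private theorem integral_ball_circ {u : ℂ → ℝ} (hu : Continuous u) (c : ℂ) {R : ℝ} (hR : 0 ≤ R) :
    ∫ z in ball c R, u z = ∫ r in (0:ℝ)..R, 2 * π * r * circleAverage u c r := by
  have h1 : ∫ z in ball c R, u z = ∫ z, (ball c R).indicator u (z + c) := by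
    rw [integral_add_right_eq_self (fun z => (ball c R).indicator u z) c]
    rw [integral_indicator measurableSet_ball]
  rw [h1, ← Complex.integral_comp_polarCoord_symm]
  have h2 : ∀ p ∈ polarCoord.target, p.1 • (ball c R).indicator u (Complex.polarCoord.symm p + c) =
      (Iio R ×ˢ (univ : Set ℝ)).indicator (fun p : ℝ × ℝ => p.1 * u (circleMap c p.1 p.2)) p := by
    intro p hp
    have hp1 : 0 < p.1 := by
      simpa using hp.1
    have e1 : Complex.polarCoord.symm p + c = circleMap c p.1 p.2 := by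
      rw [Complex.polarCoord_symm_apply, circleMap, Complex.exp_mul_I]
      push_cast
      ring
    rw [e1]
    by_cases hlt : p.1 < R
    · have m1 : circleMap c p.1 p.2 ∈ ball c R := by
        rw [mem_ball, dist_eq_norm]
        simp [abs_of_pos hp1, hlt]
      rw [indicator_of_mem m1, indicator_of_mem (by exact ⟨hlt, mem_univ _⟩), smul_eq_mul]
    · have m1 : circleMap c p.1 p.2 ∉ ball c R := by
        rw [mem_ball, dist_eq_norm]
        simpa [abs_of_pos hp1] using hlt
      rw [indicator_of_notMem m1, indicator_of_notMem (by rintro ⟨h, -⟩; exact hlt h), smul_zero]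
  rw [setIntegral_congr_fun (by exact polarCoord.open_target.measurableSet) h2,
    integral_indicator (measurableSet_Iio.prod MeasurableSet.univ),
    Measure.restrict_restrict (measurableSet_Iio.prod MeasurableSet.univ)]
  have h3 : (Iio R ×ˢ (univ : Set ℝ)) ∩ polarCoord.target = Ioo 0 R ×ˢ Ioo (-π) π := by
    rw [polarCoord_target]
    ext p
    simp only [mem_inter_iff, mem_prod, mem_Iio, mem_univ, mem_Ioi, mem_Ioo]
    tauto
  rw [h3, Measure.volume_eq_prod, setIntegral_prod]
  · rw [intervalIntegral.integral_of_le hR, integral_Ioc_eq_integral_Ioo]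
    refine setIntegral_congr_fun measurableSet_Ioo fun r hr => ?_
    show ∫ θ in Ioo (-π) π, r * u (circleMap c r θ) = _
    rw [circleAverage_eq_integral_add (-π), intervalIntegral.integral_comp_add_right
      (fun θ => u (circleMap c r θ)), integral_const_mul, ← integral_Ioc_eq_integral_Ioo,
      ← intervalIntegral.integral_of_le (by linarith [Real.pi_pos]), smul_eq_mul]
    have e2 : (2 * π + -π) = π := by ring
    have e3 : (0 : ℝ) + -π = -π := by ring
    rw [e2, e3]
    have := Real.pi_pos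
    field_simp
  · have hc : Continuous fun p : ℝ × ℝ => p.1 * u (circleMap c p.1 p.2) := by
      have : Continuous fun p : ℝ × ℝ => circleMap c p.1 p.2 := circleMap.continuous
      exact continuous_fst.mul (hu.comp this)
    have : IntegrableOn (fun p : ℝ × ℝ => p.1 * u (circleMap c p.1 p.2))
        (Icc 0 R ×ˢ Icc (-π) π) := hc.continuousOn.integrableOn_compact
          (isCompact_Icc.prod isCompact_Icc)
    exact this.mono_set (prod_mono Ioo_subset_Icc_self Ioo_subset_Icc_self)

private theorem jensen_le {h : ℂ → ℂ} (hh : Differentiable ℂ h) (c : ℂ) (hc : h c ≠ 0) {r : ℝ}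
    (hr : 0 < r) : Real.log ‖h c‖ ≤ circleAverage (Real.log ‖h ·‖) c r := by
  have han : AnalyticOnNhd ℂ h (closedBall c |r|) := fun z _ => hh.analyticAt z
  rw [AnalyticOnNhd.circleAverage_log_norm hr.ne' han hc]
  have : 0 ≤ ∑ᶠ u, (MeromorphicOn.divisor h (closedBall c |r|) u : ℝ) *
      Real.log (r * ‖c - u‖⁻¹) := by
    refine finsum_nonneg fun u => ?_
    by_cases hu : u ∈ closedBall c |r|
    · refine mul_nonneg (by exact_mod_cast MeromorphicOn.AnalyticOnNhd.divisor_nonneg han u) ?_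
      rcases eq_or_ne u c with rfl | hne
      · simp
      · have h0 : 0 < ‖c - u‖ := norm_pos_iff.mpr (sub_ne_zero.mpr hne.symm)
        refine Real.log_nonneg ?_
        rw [← div_eq_mul_inv, one_le_div h0]
        rw [mem_closedBall, dist_comm, dist_eq_norm, abs_of_pos hr] at hu
        exact hu
    · rw [Function.locallyFinsuppWithin.apply_eq_zero_of_notMem _ hu]
      simp
  linarith

private theorem mero (h : ℂ → ℂ) (hh : Differentiable ℂ h) (s : Set ℂ) : MeromorphicOn h s :=
  fun z _ => (hh.analyticAt z).meromorphicAt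

private theorem posLog_le {h : ℂ → ℂ} (hh : Differentiable ℂ h) (c : ℂ) {r : ℝ}
    (hr : 0 < r) : Real.posLog ‖h c‖ ≤ circleAverage (fun z => Real.posLog ‖h z‖) c r := by
  have hnn : 0 ≤ circleAverage (fun z => Real.posLog ‖h z‖) c r :=
    circleAverage_nonneg_of_nonneg fun _ _ => Real.posLog_nonneg
  by_cases hc : h c = 0
  · rw [hc]
    simpa using hnn
  · rw [Real.posLog_apply]
    refine max_le hnn ((jensen_le hh c hc hr).trans ?_)
    refine circleAverage_mono (mero h hh _).circleIntegrable_log_norm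
      (mero h hh _).circleIntegrable_posLog_norm fun z _ => ?_
    rw [Real.posLog_apply]
    exact le_max_right _ _

private theorem circ_le {f g h : ℂ → ℂ} (hg : Differentiable ℂ g)
    (hh : Differentiable ℂ h) (he : ∀ s : ℂ, f s = g s * h s) {c : ℂ} (hc : g c ≠ 0) {r : ℝ}
    (hr : 0 < r) {A B : ℝ} (hA : ∀ z ∈ sphere c |r|, Real.posLog ‖f z‖ ≤ A)
    (hB : ∀ z ∈ sphere c |r|, Real.posLog ‖g z‖ ≤ B) :
    circleAverage (fun z => Real.posLog ‖h z‖) c r ≤ A + B - Real.log ‖g c‖ := by
  have hcod : ∀ᶠ z in codiscreteWithin (sphere c |r|), g z ≠ 0 := by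
    have h1 : g ⁻¹' {0}ᶜ ∈ codiscrete ℂ :=
      AnalyticOnNhd.preimage_zero_mem_codiscrete (fun z _ => hg.analyticAt z) hc
    exact codiscreteWithin_mono (subset_univ _) h1
  set ψ : ℂ → ℝ := fun z => A + B - Real.log ‖g z‖ with hψ
  have hψi : CircleIntegrable ψ c r :=
    (circleIntegrable_const (A + B) c r).sub (mero g hg _).circleIntegrable_log_norm
  set φ : ℂ → ℝ := fun z => if g z = 0 then ψ z else Real.posLog ‖h z‖ with hφ
  have e1 : (fun z => Real.posLog ‖h z‖) =ᶠ[codiscreteWithin (sphere c |r|)] φ := by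
    filter_upwards [hcod] with z hz
    rw [hφ]
    simp [hz]
  have hφi : CircleIntegrable φ c r := by
    refine CircleIntegrable.congr_codiscreteWithin e1 ?_
    exact (mero h hh _).circleIntegrable_posLog_norm
  rw [circleAverage_congr_codiscreteWithin e1 hr.ne']
  have h2 : circleAverage φ c r ≤ circleAverage ψ c r := by
    refine circleAverage_mono hφi hψi fun z hz => ?_
    rw [hφ]
    by_cases hgz : g z = 0
    · simp [hgz]
    · simp only [hgz, if_false]
      have e2 : h z = f z * (g z)⁻¹ := by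
        rw [he z]
        field_simp
      have e3 : Real.posLog ‖(g z)⁻¹‖ = Real.posLog ‖g z‖ - Real.log ‖g z‖ := by
        have := Real.posLog_sub_posLog_inv (x := ‖g z‖)
        rw [norm_inv]
        linarith
      have e4 : Real.posLog ‖h z‖ ≤ Real.posLog ‖f z‖ + Real.posLog ‖(g z)⁻¹‖ := by
        rw [e2, norm_mul]
        exact Real.posLog_mul
      rw [e3] at e4
      have := hA z hz
      have := hB z hz
      rw [hψ]
      simp only
      linarith
  refine h2.trans ?_
  rw [hψ, circleAverage_fun_sub (circleIntegrable_const (A + B) c r)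
    (mero g hg _).circleIntegrable_log_norm, circleAverage_const]
  have := jensen_le hg c hc hr
  linarith

private theorem point_le {f g h : ℂ → ℂ} (hg : Differentiable ℂ g)
    (hh : Differentiable ℂ h) (he : ∀ s : ℂ, f s = g s * h s) {c s : ℂ} (hc : g c ≠ 0) {R : ℝ}
    (hs : ‖s - c‖ + 1 ≤ R) {A B : ℝ} (hA : ∀ z, ‖z - c‖ ≤ R → Real.posLog ‖f z‖ ≤ A)
    (hB : ∀ z, ‖z - c‖ ≤ R → Real.posLog ‖g z‖ ≤ B) :
    Real.posLog ‖h s‖ ≤ R ^ 2 * (A + B - Real.log ‖g c‖) := by
  have hR : 1 ≤ R := by linarith [norm_nonneg (s - c)]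
  set u : ℂ → ℝ := fun z => Real.posLog ‖h z‖ with hu
  have huc : Continuous u := Real.continuous_posLog.comp hh.continuous.norm
  have hu0 : ∀ z, 0 ≤ u z := fun z => Real.posLog_nonneg
  set M := A + B - Real.log ‖g c‖ with hM
  have hcirc : ∀ r, 0 < r → r ≤ R → circleAverage u c r ≤ M := by
    intro r hr hrR
    refine circ_le hg hh he hc hr (fun z hz => hA z ?_) (fun z hz => hB z ?_)
    all_goals
      rw [mem_sphere, dist_eq_norm, abs_of_pos hr] at hz
      rw [hz]
      exact hrR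
  have hint : ∀ (c : ℂ) (R : ℝ), IntegrableOn u (ball c R) := fun c R =>
    (huc.continuousOn.integrableOn_compact (isCompact_closedBall c R)).mono_set
      ball_subset_closedBall
  have hsub : ball s 1 ⊆ ball c R := by
    refine ball_subset_ball' ?_
    rw [dist_eq_norm]
    linarith
  have h1 : ∫ z in ball s 1, u z ≤ ∫ z in ball c R, u z :=
    setIntegral_mono_set (hint c R) (Eventually.of_forall hu0) hsub.eventuallyLE
  rw [integral_ball_circ huc s zero_le_one, integral_ball_circ huc c (by linarith)] at h1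
  have hpi := Real.pi_pos
  have h2 : ∫ r in (0:ℝ)..1, 2 * π * r * u s ≤ ∫ r in (0:ℝ)..1, 2 * π * r * circleAverage u s r := by
    refine intervalIntegral.integral_mono_on_of_le_Ioo zero_le_one ?_ ?_ ?_
    · exact Continuous.intervalIntegrable (by fun_prop) _ _
    · exact Continuous.intervalIntegrable (by fun_prop) _ _
    · intro r hr
      have := posLog_le hh s hr.1
      have h0 : 0 ≤ 2 * π * r := by have := hr.1; positivity
      exact mul_le_mul_of_nonneg_left this h0
  have h3 : ∫ r in (0:ℝ)..R, 2 * π * r * circleAverage u c r ≤ ∫ r in (0:ℝ)..R, 2 * π * r * M := by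
    refine intervalIntegral.integral_mono_on_of_le_Ioo (by linarith) ?_ ?_ ?_
    · exact Continuous.intervalIntegrable (by fun_prop) _ _
    · exact Continuous.intervalIntegrable (by fun_prop) _ _
    · intro r hr
      have := hcirc r hr.1 hr.2.le
      have h0 : 0 ≤ 2 * π * r := by have := hr.1; positivity
      exact mul_le_mul_of_nonneg_left this h0
  have h4 : ∀ (T K : ℝ), ∫ r in (0:ℝ)..T, 2 * π * r * K = π * T ^ 2 * K := by
    intro T K
    have : (fun r : ℝ => 2 * π * r * K) = fun r : ℝ => (2 * π * K) * r := by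
      ext r
      ring
    rw [this, intervalIntegral.integral_const_mul, integral_id]
    ring
  rw [h4] at h2 h3
  have h5 := h2.trans (h1.trans h3)
  have h6 : π * u s ≤ π * (R ^ 2 * M) := by
    calc π * u s = π * 1 ^ 2 * u s := by ring
      _ ≤ π * R ^ 2 * M := h5
      _ = π * (R ^ 2 * M) := by ring
  exact le_of_mul_le_mul_left h6 hpi

private theorem strip_bd {f : ℂ → ℂ} (h1 : FinOrd f) (R : ℝ) (hR : 0 ≤ R) :
    ∃ (A K : ℝ), 0 ≤ A ∧ 0 ≤ K ∧ ∀ y : ℝ, ∀ z : ℂ, ‖z - (3 + y * Complex.I)‖ ≤ R →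
      Real.posLog ‖f z‖ ≤ K * (1 + |y|) ^ A := by
  obtain ⟨A, C, hAC⟩ := h1 (3 - R) (3 + R)
  refine ⟨|A|, |C| * (1 + R) ^ |A|, abs_nonneg _, by positivity, fun y z hz => ?_⟩
  have hre : |z.re - 3| ≤ R := by
    have := (Complex.abs_re_le_norm (z - (3 + y * Complex.I))).trans hz
    simpa using this
  have him : |z.im - y| ≤ R := by
    have := (Complex.abs_im_le_norm (z - (3 + y * Complex.I))).trans hz
    simpa using this
  rw [abs_le] at hre
  have hb := hAC z (by linarith) (by linarith)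
  have hy : (1 : ℝ) ≤ 1 + |y| := by linarith [abs_nonneg y]
  have hz1 : (1 : ℝ) ≤ 1 + |z.im| := by linarith [abs_nonneg z.im]
  have him2 : 1 + |z.im| ≤ (1 + R) * (1 + |y|) := by
    have : |z.im| ≤ |z.im - y| + |y| := by
      have := abs_add_le (z.im - y) y
      simpa using this
    nlinarith [abs_nonneg y]
  have hb2 : ‖f z‖ ≤ Real.exp (|C| * (1 + R) ^ |A| * (1 + |y|) ^ |A|) := by
    refine hb.trans (Real.exp_le_exp.mpr ?_)
    calc C * (1 + |z.im|) ^ A ≤ |C| * (1 + |z.im|) ^ |A| :=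
          mul_le_mul (le_abs_self C) (Real.rpow_le_rpow_of_exponent_le hz1 (le_abs_self A))
            (by positivity) (abs_nonneg C)
      _ ≤ |C| * ((1 + R) * (1 + |y|)) ^ |A| := by
          gcongr
      _ = |C| * (1 + R) ^ |A| * (1 + |y|) ^ |A| := by
          rw [Real.mul_rpow (by positivity) (by positivity)]
          ring
  calc Real.posLog ‖f z‖ ≤ Real.posLog (Real.exp (|C| * (1 + R) ^ |A| * (1 + |y|) ^ |A|)) :=
        Real.posLog_le_posLog (norm_nonneg _) hb2
    _ = |C| * (1 + R) ^ |A| * (1 + |y|) ^ |A| := by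
        rw [Real.posLog_apply, Real.log_exp]
        exact max_eq_right (by positivity)

theorem finOrd_quot {f g h : ℂ → ℂ} (hf : Differentiable ℂ f) (hg : Differentiable ℂ g)
    (hh : Differentiable ℂ h) (h1 : FinOrd f) (h2 : FinOrd g) (he : ∀ s : ℂ, f s = g s * h s)
    {c : ℝ} (hc : 0 < c) {k : ℕ}
    (hlow : ∀ s : ℂ, s.re = 3 → c * Real.exp (-(1 + |s.im|) ^ k) ≤ ‖g s‖) : FinOrd h := by
  intro a b
  set R : ℝ := |a| + |b| + 10 with hRdef
  have hR : 0 ≤ R := by positivity
  obtain ⟨A1, K1, hA1, hK1, hf1⟩ := strip_bd h1 R hR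
  obtain ⟨A2, K2, hA2, hK2, hg1⟩ := strip_bd h2 R hR
  refine ⟨A1 + A2 + k, R ^ 2 * (K1 + K2 + |Real.log c| + 1), fun s ha hb => ?_⟩
  set y : ℝ := s.im with hy
  set s0 : ℂ := 3 + y * Complex.I with hs0
  have hre0 : s0.re = 3 := by simp [hs0]
  have him0 : s0.im = y := by simp [hs0]
  have hlow0 := hlow s0 hre0
  rw [him0] at hlow0
  have hpos : 0 < c * Real.exp (-(1 + |y|) ^ k) := by positivity
  have hg0 : g s0 ≠ 0 := by
    intro h0
    rw [h0, norm_zero] at hlow0
    linarith
  have hss : ‖s - s0‖ + 1 ≤ R := by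
    have e : s - s0 = ((s.re - 3 : ℝ) : ℂ) := by
      apply Complex.ext
      · simp [hs0]
      · simp [hs0, hy]
    rw [e, Complex.norm_real, Real.norm_eq_abs]
    have : |s.re - 3| ≤ |a| + |b| + 3 := by
      rw [abs_le]
      constructor
      · linarith [neg_abs_le a, abs_nonneg b]
      · linarith [le_abs_self b, abs_nonneg a]
    linarith
  have hmain := point_le hg hh he hg0 hss (fun z hz => hf1 y z hz) (fun z hz => hg1 y z hz)
  have hlog : -Real.log ‖g s0‖ ≤ |Real.log c| + (1 + |y|) ^ k := by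
    have := Real.log_le_log hpos hlow0
    rw [Real.log_mul hc.ne' (Real.exp_ne_zero _), Real.log_exp] at this
    linarith [neg_abs_le (Real.log c)]
  have hy1 : (1 : ℝ) ≤ 1 + |y| := by linarith [abs_nonneg y]
  have hT : Real.posLog ‖h s‖ ≤ R ^ 2 * (K1 + K2 + |Real.log c| + 1) *
      (1 + |y|) ^ (A1 + A2 + (k : ℝ)) := by
    refine hmain.trans ?_
    rw [mul_assoc]
    refine mul_le_mul_of_nonneg_left ?_ (by positivity)
    have hk : (0 : ℝ) ≤ k := Nat.cast_nonneg k
    have t1 : (1 + |y|) ^ A1 ≤ (1 + |y|) ^ (A1 + A2 + (k : ℝ)) :=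
      Real.rpow_le_rpow_of_exponent_le hy1 (by linarith)
    have t2 : (1 + |y|) ^ A2 ≤ (1 + |y|) ^ (A1 + A2 + (k : ℝ)) :=
      Real.rpow_le_rpow_of_exponent_le hy1 (by linarith)
    have t3 : (1 + |y|) ^ k ≤ (1 + |y|) ^ (A1 + A2 + (k : ℝ)) := by
      rw [← Real.rpow_natCast]
      exact Real.rpow_le_rpow_of_exponent_le hy1 (by linarith)
    have t4 : (1 : ℝ) ≤ (1 + |y|) ^ (A1 + A2 + (k : ℝ)) :=
      Real.one_le_rpow hy1 (by linarith)
    have t5 := mul_le_mul_of_nonneg_left t1 hK1
    have t6 := mul_le_mul_of_nonneg_left t2 hK2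
    have t7 := mul_le_mul_of_nonneg_left t4 (abs_nonneg (Real.log c))
    linarith
  by_cases hz : h s = 0
  · rw [hz, norm_zero]
    exact (Real.exp_pos _).le
  · calc ‖h s‖ = Real.exp (Real.log ‖h s‖) := (Real.exp_log (norm_pos_iff.mpr hz)).symm
      _ ≤ Real.exp (R ^ 2 * (K1 + K2 + |Real.log c| + 1) * (1 + |y|) ^ (A1 + A2 + (k : ℝ))) := by
        refine Real.exp_le_exp.mpr (le_trans ?_ hT)
        rw [Real.posLog_apply]
        exact le_max_right _ _

end Pool.Agent.QD
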