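import Mathlib

/-!
# QD-F2: orders away from the central line

PLAN. `ord_right`: `f = g R` on `Re s > 3/2`, hence on `Re s > 1` (identity theorem on the convex
open set), so `analyticOrderAt f z = analyticOrderAt g z + analyticOrderAt R z`
(`analyticOrderAt_mul`) for `Re z > 1`.
`ord_left`: let `Re z < 1`; `f s * g (2 - s) = w * (f (2 - s) * g s)`; orders at `z`:
`ord_z f + ord_(2-z) g = ord_(2-z) f + ord_z g` (order of `s ↦ g (2 - s)` at `z` is the order of
`g` at `2 - z`: composition with an affine map), and `ord_(2-z) g ≤ ord_(2-z) f`,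
`ord_(2-z) g < ⊤`.
-/

namespace Pool.Agent.QD

theorem ord_right {f g R : ℂ → ℂ} (hf : Differentiable ℂ f) (hg : Differentiable ℂ g)
    (hR : DifferentiableOn ℂ R {s : ℂ | 1 < s.re})
    (h : ∀ s : ℂ, 3 / 2 < s.re → f s = g s * R s) :
    (∀ s : ℂ, 1 < s.re → f s = g s * R s) ∧
    ∀ z : ℂ, 1 < z.re → analyticOrderAt g z ≤ analyticOrderAt f z := by
  have hU : IsOpen {s : ℂ | 1 < s.re} := isOpen_lt continuous_const Complex.continuous_re
  have hconv : Convex ℝ {s : ℂ | 1 < s.re} := convex_halfSpace_re_gt 1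
  have hRa : AnalyticOnNhd ℂ R {s : ℂ | 1 < s.re} := hR.analyticOnNhd hU
  have hfa : ∀ z, AnalyticAt ℂ f z := fun z => hf.analyticAt z
  have hga : ∀ z, AnalyticAt ℂ g z := fun z => hg.analyticAt z
  have hgR : AnalyticOnNhd ℂ (fun s => g s * R s) {s : ℂ | 1 < s.re} :=
    fun z hz => (hga z).mul (hRa z hz)
  have h2 : (2 : ℂ) ∈ {s : ℂ | 1 < s.re} := by
    simp
  have hev : f =ᶠ[nhds 2] fun s => g s * R s := by
    have h3 : {s : ℂ | 3 / 2 < s.re} ∈ nhds (2 : ℂ) :=
      (isOpen_lt continuous_const Complex.continuous_re).mem_nhds (by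
        change (3 / 2 : ℝ) < (2 : ℂ).re
        norm_num)
    exact Filter.mem_of_superset h3 fun s hs => h s hs
  have hEq : Set.EqOn f (fun s => g s * R s) {s : ℂ | 1 < s.re} :=
    AnalyticOnNhd.eqOn_of_preconnected_of_eventuallyEq (fun z _ => hfa z) hgR
      hconv.isPreconnected h2 hev
  refine ⟨fun s hs => hEq hs, fun z hz => ?_⟩
  have h4 : f =ᶠ[nhds z] (g * R) := by
    exact Filter.mem_of_superset (hU.mem_nhds hz) fun s hs => hEq hs
  rw [analyticOrderAt_congr h4, analyticOrderAt_mul (hga z) (hRa z hz)]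
  exact le_self_add

theorem ord_left {f g : ℂ → ℂ} (hf : Differentiable ℂ f) (hg : Differentiable ℂ g)
    (hg0 : ∃ s, g s ≠ 0) {w : ℂ} (hw : w ≠ 0)
    (hfe : ∀ s : ℂ, f s * g (2 - s) = w * (f (2 - s) * g s))
    (h : ∀ z : ℂ, 1 < z.re → analyticOrderAt g z ≤ analyticOrderAt f z) :
    ∀ z : ℂ, z.re < 1 → analyticOrderAt g z ≤ analyticOrderAt f z := by
  intro z hz
  have hfa : ∀ z, AnalyticAt ℂ f z := fun z => hf.analyticAt z
  have hga : ∀ z, AnalyticAt ℂ g z := fun z => hg.analyticAt z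
  have hσ : AnalyticAt ℂ (fun s : ℂ => 2 - s) z := analyticAt_const.sub analyticAt_id
  have hσ' : deriv (fun s : ℂ => 2 - s) z ≠ 0 := by
    rw [deriv_const_sub, deriv_id'']
    exact neg_ne_zero.2 one_ne_zero
  have hcf : analyticOrderAt (f ∘ fun s : ℂ => 2 - s) z = analyticOrderAt f (2 - z) :=
    analyticOrderAt_comp_of_deriv_ne_zero hσ hσ'
  have hcg : analyticOrderAt (g ∘ fun s : ℂ => 2 - s) z = analyticOrderAt g (2 - z) :=
    analyticOrderAt_comp_of_deriv_ne_zero hσ hσ'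
  have hafc : AnalyticAt ℂ (f ∘ fun s : ℂ => 2 - s) z := (hfa (2 - z)).comp hσ
  have hagc : AnalyticAt ℂ (g ∘ fun s : ℂ => 2 - s) z := (hga (2 - z)).comp hσ
  have hw' : analyticOrderAt (fun _ : ℂ => w) z = 0 :=
    (analyticAt_const.analyticOrderAt_eq_zero).2 hw
  have hfun : f * (g ∘ fun s : ℂ => 2 - s) =
      (fun _ : ℂ => w) * ((f ∘ fun s : ℂ => 2 - s) * g) := by
    funext s
    exact hfe s
  have hsum : analyticOrderAt f z + analyticOrderAt g (2 - z) =
      analyticOrderAt f (2 - z) + analyticOrderAt g z := by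
    rw [← hcg, ← hcf, ← analyticOrderAt_mul (hfa z) hagc, hfun,
      analyticOrderAt_mul analyticAt_const (hafc.mul (hga z)),
      analyticOrderAt_mul hafc (hga z), hw', zero_add]
  have h5 : analyticOrderAt g (2 - z) ≤ analyticOrderAt f (2 - z) := by
    apply h
    simp only [Complex.sub_re, Complex.re_ofNat]
    linarith
  have h6 : analyticOrderAt g (2 - z) ≠ ⊤ := by
    intro h7
    obtain ⟨s, hs⟩ := hg0
    apply hs
    rw [AnalyticOnNhd.analyticOrderAt_eq_top_iff_eq_zero _ hga] at h7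
    rw [h7]
    rfl
  rw [← ENat.add_le_add_iff_right h6, hsum, add_comm (analyticOrderAt f (2 - z))]
  exact add_le_add le_rfl h5

end Pool.Agent.QD
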