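import Pool.Agent.QD.F.Mer
import Pool.Agent.QD.Inst
import Pool.Agent.HWR.HasseFinal

/-!
# QD-F7: traces of Frobenius of `y^2 = x^3 + A x + B`

`aE A B p = p + 1 - #E(F_p)`; `luc a p f = α^f + β^f` where `α + β = a`, `α β = p`;
`aT A B T q = α_p^f + β_p^f` for `q = p^f`, `p ∉ T` (the trace of `Frob_p^f` on the Tate
module), and `0` for all other `q`.

PLAN. Hasse bound for prime fields: `Pool.Agent.HWR.hasse_bound` (HWR/HasseFinal.lean) with
`k = ZMod p`, gives `|aE A B p| ≤ 2 √p` (`p ∉ T`, so `p` odd and `4A^3+27B^2 ≠ 0` in `ZMod p`;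
relate the point count there (HasseDef.lean) to the number of affine solutions).  Then
`α, β` are conjugate of absolute value `√p`, so `|luc| ≤ 2 p^(f/2) = 2 √q`.
`FrobRel`: `luc` satisfies the recursion.  `SqRel`: `nrm v = p^f` with `p ∉ T`
(`Ideal.absNorm` of a prime is a prime power, `p ∈ v.asIdeal`), `V_(2f) = V_f^2 - 2 p^f`.
-/

namespace Pool.Agent.QD

open NumberField IsDedekindDomain Pool.Agent.HWR

/-- `p + 1 - #E(F_p)` = `p` minus the number of affine solutions of `y^2 = x^3 + A x + B`. -/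
noncomputable def aE (A B : ℤ) (p : ℕ) : ℤ :=
  (p : ℤ) - Nat.card {z : ZMod p × ZMod p // z.2 ^ 2 = z.1 ^ 3 + (A : ZMod p) * z.1 + (B : ZMod p)}

/-- Lucas sequence: `α^f + β^f` for `α + β = a`, `α β = p` -/
noncomputable def luc (a p : ℝ) : ℕ → ℝ
  | 0 => 2
  | 1 => a
  | (n + 2) => a * luc a p (n + 1) - p * luc a p n

open Classical in
/-- trace of Frobenius, as a function of the norm -/
noncomputable def aT (A B : ℤ) (T : Finset ℕ) (q : ℕ) : ℝ :=
  if q.minFac.Prime ∧ q.minFac ∉ T ∧ ∃ f : ℕ, 1 ≤ f ∧ q = q.minFac ^ f then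
    luc (aE A B q.minFac) q.minFac (q.factorization q.minFac) else 0

private theorem luc_eq (a p : ℝ) (α β : ℂ) (h1 : α + β = a) (h2 : α * β = p) :
    ∀ n : ℕ, ((luc a p n : ℝ) : ℂ) = α ^ n + β ^ n := by
  intro n
  induction n using Nat.twoStepInduction with
  | zero => simp [luc]; norm_num
  | one => simp [luc, h1]
  | more n ih1 ih2 =>
    rw [luc]
    push_cast
    rw [ih1, ih2, ← h1, ← h2]
    ring

private theorem luc_bd (a p : ℝ) (hp : 0 ≤ p) (ha : |a| ≤ 2 * Real.sqrt p) (n : ℕ) :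
    |luc a p n| ≤ 2 * Real.sqrt (p ^ n) := by
  have hd : 0 ≤ 4 * p - a ^ 2 := by
    have h1 : a ^ 2 ≤ (2 * Real.sqrt p) ^ 2 := by
      rw [← sq_abs a]
      exact pow_le_pow_left₀ (abs_nonneg a) ha 2
    rw [mul_pow, Real.sq_sqrt hp] at h1
    linarith
  set α : ℂ := ⟨a / 2, Real.sqrt (4 * p - a ^ 2) / 2⟩ with hα
  have hs : Real.sqrt (4 * p - a ^ 2) * Real.sqrt (4 * p - a ^ 2) = 4 * p - a ^ 2 :=
    Real.mul_self_sqrt hd
  have hn : Complex.normSq α = p := by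
    rw [hα, Complex.normSq_mk]
    linarith
  have h1 : α + (starRingEnd ℂ) α = a := by
    rw [Complex.add_conj, hα]
    push_cast
    ring
  have h2 : α * (starRingEnd ℂ) α = p := by
    rw [Complex.mul_conj, hn]
  have h3 := luc_eq a p α ((starRingEnd ℂ) α) h1 h2 n
  have h4 : |luc a p n| = ‖α ^ n + ((starRingEnd ℂ) α) ^ n‖ := by
    rw [← h3, Complex.norm_real, Real.norm_eq_abs]
  have h5 : ‖α‖ ^ 2 = p := by
    rw [← Complex.normSq_eq_norm_sq, hn]
  have h6 : ‖α ^ n + ((starRingEnd ℂ) α) ^ n‖ ≤ 2 * ‖α‖ ^ n := by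
    refine (norm_add_le _ _).trans ?_
    rw [norm_pow, norm_pow, RCLike.norm_conj]
    linarith
  have h7 : ‖α‖ ^ n = Real.sqrt (p ^ n) := by
    rw [← h5, ← pow_mul, mul_comm 2 n, pow_mul, Real.sqrt_sq (by positivity)]
  rw [h4, ← h7]
  exact h6

private theorem aT_pow (A B : ℤ) (T : Finset ℕ) (p : ℕ) (hp : p.Prime) (hpT : p ∉ T) (f : ℕ)
    (hf : 1 ≤ f) : aT A B T (p ^ f) = luc (aE A B p) p f := by
  have h1 : (p ^ f).minFac = p := hp.pow_minFac (by omega)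
  have h2 : (p ^ f).factorization p = f := by
    rw [hp.factorization_pow]
    simp
  unfold aT
  rw [h1, h2, if_pos ⟨hp, hpT, f, hf, rfl⟩]

theorem aT_bd (A B : ℤ) (T : Finset ℕ) (hT : ∀ p : ℕ, p.Prime → p < 101 → p ∈ T)
    (hbad : ∀ p : ℕ, p.Prime → (p : ℤ) ∣ 4 * A ^ 3 + 27 * B ^ 2 → p ∈ T) (q : ℕ) :
    |aT A B T q| ≤ 2 * Real.sqrt q := by
  by_cases h : q.minFac.Prime ∧ q.minFac ∉ T ∧ ∃ f : ℕ, 1 ≤ f ∧ q = q.minFac ^ f
  · obtain ⟨hp, hpT, f, hf, hq⟩ := h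
    have h1 := aT_pow A B T q.minFac hp hpT f hf
    rw [← hq] at h1
    rw [h1]
    set p := q.minFac with hpdef
    haveI : Fact p.Prime := ⟨hp⟩
    have h101 : 101 ≤ p := by
      by_contra hlt
      exact hpT (hT p hp (by omega))
    have h2 : (2 : ZMod p) ≠ 0 := by
      intro h0
      have h3 : ((2 : ℕ) : ZMod p) = 0 := by exact_mod_cast h0
      rw [ZMod.natCast_eq_zero_iff] at h3
      have := Nat.le_of_dvd (by norm_num) h3
      omega
    have hD : 4 * (A : ZMod p) ^ 3 + 27 * (B : ZMod p) ^ 2 ≠ 0 := by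
      intro h0
      have h3 : ((4 * A ^ 3 + 27 * B ^ 2 : ℤ) : ZMod p) = 0 := by
        push_cast
        exact h0
      rw [ZMod.intCast_zmod_eq_zero_iff_dvd] at h3
      exact hpT (hbad p hp h3)
    have h4 := hasse_bound (k := ZMod p) h2 (A : ZMod p) (B : ZMod p) hD
    rw [ZMod.card] at h4
    have h5 : |((aE A B p : ℤ) : ℝ)| ≤ 2 * Real.sqrt (p : ℝ) := by
      unfold aE
      push_cast
      exact h4
    have h6 := luc_bd (aE A B p : ℝ) (p : ℝ) (Nat.cast_nonneg p) h5 f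
    have h7 : (q : ℝ) = (p : ℝ) ^ f := by
      rw [hq]
      push_cast
      rfl
    rw [h7]
    exact h6
  · have h1 : aT A B T q = 0 := by
      unfold aT
      rw [if_neg h]
    rw [h1, abs_zero]
    positivity

theorem aT_frob (A B : ℤ) (T : Finset ℕ) : FrobRel T (aT A B T) := by
  intro p hp hpT
  obtain ⟨s, hs⟩ := IsAlgClosed.exists_pow_nat_eq ((((aE A B p : ℝ) : ℂ)) ^ 2 - 4 * (p : ℂ))
    (n := 2) (by norm_num)
  refine ⟨(((aE A B p : ℝ) : ℂ) + s) / 2, (((aE A B p : ℝ) : ℂ) - s) / 2, ?_, ?_⟩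
  · linear_combination -(1 / 4 : ℂ) * hs
  · intro f hf
    rw [aT_pow A B T p hp hpT f hf]
    apply luc_eq
    · ring
    · push_cast
      linear_combination -(1 / 4 : ℂ) * hs

theorem sqRel_of_frob (K : Type) [Field K] [NumberField K] (T : Finset ℕ) (a : ℕ → ℝ)
    (h : FrobRel T a) : SqRel K T a := by
  intro v hv
  haveI : v.asIdeal.IsMaximal := v.isMaximal
  letI : Field (𝓞 K ⧸ v.asIdeal) := Ideal.Quotient.field v.asIdeal
  haveI : Finite (𝓞 K ⧸ v.asIdeal) := Ideal.finiteQuotientOfFreeOfNeBot v.asIdeal v.ne_bot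
  letI : Fintype (𝓞 K ⧸ v.asIdeal) := Fintype.ofFinite _
  have hpp : IsPrimePow (nrm v) := by
    have h1 := Fintype.isPrimePow_card_of_field (α := 𝓞 K ⧸ v.asIdeal)
    have h2 : nrm v = Fintype.card (𝓞 K ⧸ v.asIdeal) := by
      unfold nrm
      rw [Ideal.absNorm_apply, Submodule.cardQuot_apply, Nat.card_eq_fintype_card]
    rw [h2]
    exact h1
  rw [isPrimePow_nat_iff] at hpp
  obtain ⟨p, f, hp, hf, hpf⟩ := hpp
  have hmem : ((p : ℕ) : 𝓞 K) ∈ v.asIdeal := by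
    have h1 : ((nrm v : ℕ) : 𝓞 K) ∈ v.asIdeal := Ideal.absNorm_mem v.asIdeal
    rw [← hpf, Nat.cast_pow] at h1
    exact v.isPrime.mem_of_pow_mem _ h1
  have hpT : p ∉ T := fun hT => hv p hT hmem
  obtain ⟨α, β, hαβ, hh⟩ := h p hp hpT
  have e1 := hh f hf
  have e2 := hh (f * 2) (by omega)
  have e3 : ((a (nrm v ^ 2) : ℝ) : ℂ) = ((a (nrm v) ^ 2 - 2 * nrm v : ℝ) : ℂ) := by
    rw [← hpf, ← pow_mul, e2]
    push_cast
    rw [e1, ← hαβ]
    ring
  exact_mod_cast e3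

end Pool.Agent.QD
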