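import Pool.Agent.QD.F.Descent
import Pool.Agent.QD.F.Trace
import Pool.Agent.H73.AL.Final

/-!
# QD, main theorem
-/

namespace Pool.Agent.QD

open NumberField IsDedekindDomain Pool.Agent.HWR

/-- From degrees divisible by `2^m n` to degrees divisible by `n`. -/
theorem all_fields (T : Finset ℕ) (hTp : ∀ p ∈ T, p.Prime)
    (hT : ∀ p : ℕ, p.Prime → p < 101 → p ∈ T) (D : LocData T) (a : ℕ → ℝ)
    (ha : ∀ q : ℕ, |a q| ≤ 2 * Real.sqrt q) (hfr : FrobRel T a) (hQ : D.HW a ℚ)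
    (m n : ℕ) (hn : n ≠ 0)
    (h : ∀ (F : Type) [Field F] [NumberField F], 2 ^ m * n ∣ Module.finrank ℚ F → D.HW a F)
    (F : Type) [Field F] [NumberField F] (hF : n ∣ Module.finrank ℚ F) : D.HW a F := by
  induction m with
  | zero => exact h F (by simpa using hF)
  | succ m ih =>
    refine ih ?_
    intro K _ _ hK
    refine descent K T hTp hT D a ha (sqRel_of_frob K T a hfr) ?_
      (Pool.Agent.H73.AL.alg_MER' D hTp hT ha (2 ^ (m + 1) * n)
        (mul_ne_zero (pow_ne_zero _ two_ne_zero) hn) hQ h K)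
    intro K' _ _ _ hK'
    refine h K' ?_
    have h1 : Module.finrank ℚ K * Module.finrank K K' = Module.finrank ℚ K' :=
      Module.finrank_mul_finrank ℚ K K'
    rw [← h1, hK', pow_succ, mul_right_comm]
    exact mul_dvd_mul_right hK 2

/-- **Main theorem.** -/
theorem main_theorem (A B : ℤ) (T : Finset ℕ) (hTp : ∀ p ∈ T, p.Prime)
    (hT : ∀ p : ℕ, p.Prime → p < 101 → p ∈ T)
    (hbad : ∀ p : ℕ, p.Prime → (p : ℤ) ∣ 4 * A ^ 3 + 27 * B ^ 2 → p ∈ T) (D : LocData T)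
    (hQ : D.HW (aT A B T) ℚ) (m n : ℕ) (hn : n ≠ 0)
    (h : ∀ (F : Type) [Field F] [NumberField F], 2 ^ m * n ∣ Module.finrank ℚ F →
      D.HW (aT A B T) F)
    (F : Type) [Field F] [NumberField F] (hF : n ∣ Module.finrank ℚ F) : D.HW (aT A B T) F :=
  all_fields T hTp hT D _ (aT_bd A B T hT hbad) (aT_frob A B T) hQ m n hn h F hF

end Pool.Agent.QD
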