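import Pool.Agent.QD.KDefs

/-!
# QD, the relation between the traces of the powers of Frobenius
-/

namespace Pool.Agent.QD

/-- `a (p^f) = α^f + β^f` with `α β = p` for the primes `p` outside `T` -/
def FrobRel (T : Finset ℕ) (a : ℕ → ℝ) : Prop :=
  ∀ p : ℕ, p.Prime → p ∉ T → ∃ α β : ℂ, α * β = p ∧ ∀ f : ℕ, 1 ≤ f →
    ((a (p ^ f) : ℝ) : ℂ) = α ^ f + β ^ f

end Pool.Agent.QD
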