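import Mathlib

/-!
# QD-F3: the local function at a pole on the central line

PLAN. Let `m = ord_t0 f < n = ord_t0 g` (`n < ⊤` as `g ≢ 0`; if `f ≡ 0` near `t0` then `f = 0` and
`ord f = ⊤ ≥ ord g`), `k = n - m`.  Near `t0`: `f = (· - t0)^m f1`, `g = (· - t0)^n g1` with
`f1 t0 ≠ 0`, `g1 ≠ 0` on a ball of radius `2 r`, `r ≤ 1/4`.  Put `h0 = f1/g1` on the ball and
`h0 t = (t - t0)^k R t` for `Re t > 1`; on the overlap `g h0 = (· - t0)^k f` for both, and `g ≢ 0`,
so they agree (continuity, isolated zeros).  `{|Im (t - t0)| < r, Re t > 1 - r} ⊆ ball ∪ {Re > 1}`.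
-/

namespace Pool.Agent.QD

open Filter Topology in
theorem local_h {f g R : ℂ → ℂ} (hf : Differentiable ℂ f) (hg : Differentiable ℂ g)
    (hg0 : ∃ s, g s ≠ 0) (hR : DifferentiableOn ℂ R {s : ℂ | 1 < s.re})
    (h : ∀ s : ℂ, 1 < s.re → f s = g s * R s) {t0 : ℂ} (ht0 : t0.re = 1)
    (ho : ¬ analyticOrderAt g t0 ≤ analyticOrderAt f t0) :
    ∃ (k : ℕ) (r : ℝ) (h0 : ℂ → ℂ), 1 ≤ k ∧ 0 < r ∧ r ≤ 1 / 4 ∧ h0 t0 ≠ 0 ∧
      DifferentiableOn ℂ h0 {t : ℂ | |(t - t0).im| < r ∧ t0.re - r < t.re} ∧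
      ∀ t : ℂ, |(t - t0).im| < r → 1 < t.re → h0 t = (t - t0) ^ k * R t := by
  classical
  have hfa : AnalyticAt ℂ f t0 := hf.analyticAt t0
  have hga : AnalyticAt ℂ g t0 := hg.analyticAt t0
  have hgan : AnalyticOnNhd ℂ g Set.univ := fun z _ => hg.analyticAt z
  have hgt : analyticOrderAt g t0 ≠ ⊤ := by
    intro htop
    rw [analyticOrderAt_eq_top] at htop
    have h1 : g = 0 := hgan.eq_of_eventuallyEq (fun z _ => analyticAt_const) htop
    obtain ⟨s, hs⟩ := hg0
    exact hs (by rw [h1]; rfl)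
  have hlt : analyticOrderAt f t0 < analyticOrderAt g t0 := not_le.1 ho
  have hft : analyticOrderAt f t0 ≠ ⊤ := (lt_of_lt_of_le hlt le_top).ne
  obtain ⟨m, hm⟩ : ∃ m : ℕ, analyticOrderAt f t0 = m :=
    ⟨analyticOrderNatAt f t0, (Nat.cast_analyticOrderNatAt hft).symm⟩
  obtain ⟨n, hn⟩ : ∃ n : ℕ, analyticOrderAt g t0 = n :=
    ⟨analyticOrderNatAt g t0, (Nat.cast_analyticOrderNatAt hgt).symm⟩
  have hmn : m < n := by
    rw [hm, hn] at hlt
    exact_mod_cast hlt
  obtain ⟨F, hFa, hF0, hFe⟩ := hfa.analyticOrderAt_eq_natCast.1 hm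
  obtain ⟨Gg, hGa, hG0, hGe⟩ := hga.analyticOrderAt_eq_natCast.1 hn
  have hGne : ∀ᶠ z in 𝓝 t0, Gg z ≠ 0 := hGa.continuousAt.eventually_ne hG0
  have hFd : ∀ᶠ z in 𝓝 t0, DifferentiableAt ℂ F z :=
    hFa.eventually_analyticAt.mono fun z hz => hz.differentiableAt
  have hGd : ∀ᶠ z in 𝓝 t0, DifferentiableAt ℂ Gg z :=
    hGa.eventually_analyticAt.mono fun z hz => hz.differentiableAt
  obtain ⟨ρ, hρ, hball⟩ := Metric.eventually_nhds_iff_ball.1
    (hFe.and (hGe.and (hGne.and (hFd.and hGd))))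
  set r : ℝ := min (ρ / 2) (1 / 4) with hr
  have hr0 : 0 < r := lt_min (by positivity) (by norm_num)
  have hr2 : 2 * r ≤ ρ := by
    have := min_le_left (ρ / 2) (1 / 4 : ℝ)
    linarith
  set h0 : ℂ → ℂ := fun t => if t ∈ Metric.ball t0 ρ then F t / Gg t else (t - t0) ^ (n - m) * R t
    with hh0
  have hin : ∀ t ∈ Metric.ball t0 ρ, h0 t = F t / Gg t := fun t ht => if_pos ht
  have hright : ∀ t : ℂ, 1 < t.re → h0 t = (t - t0) ^ (n - m) * R t := by
    intro t ht
    by_cases hb : t ∈ Metric.ball t0 ρ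
    · obtain ⟨e1, e2, e3, -, -⟩ := hball t hb
      rw [hin t hb, div_eq_iff e3]
      have hne : t - t0 ≠ 0 := by
        intro h1
        have h2 : t = t0 := sub_eq_zero.1 h1
        rw [h2, ht0] at ht
        exact lt_irrefl _ ht
      have h3 := h t ht
      rw [e1, e2, smul_eq_mul, smul_eq_mul] at h3
      apply mul_left_cancel₀ (pow_ne_zero m hne)
      rw [h3]
      have h4 : (t - t0) ^ n = (t - t0) ^ m * (t - t0) ^ (n - m) := by
        rw [← pow_add]
        congr 1
        omega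
      rw [h4]
      ring
    · exact if_neg hb
  refine ⟨n - m, r, h0, by omega, hr0, min_le_right _ _, ?_, ?_, ?_⟩
  · rw [hin t0 (Metric.mem_ball_self hρ)]
    exact div_ne_zero hF0 hG0
  · rintro t ⟨ht1, ht2⟩
    apply DifferentiableAt.differentiableWithinAt
    by_cases hb : t ∈ Metric.ball t0 ρ
    · obtain ⟨-, -, e3, e4, e5⟩ := hball t hb
      have h1 : h0 =ᶠ[𝓝 t] fun z => F z / Gg z := by
        filter_upwards [Metric.isOpen_ball.mem_nhds hb] with z hz
        exact hin z hz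
      exact (e4.div e5 e3).congr_of_eventuallyEq h1
    · have hre : 1 < t.re := by
        by_contra hcon
        push Not at hcon
        apply hb
        rw [Metric.mem_ball, dist_eq_norm]
        have h1 : ‖t - t0‖ ≤ |(t - t0).re| + |(t - t0).im| := Complex.norm_le_abs_re_add_abs_im _
        have h2 : |(t - t0).re| < r := by
          rw [Complex.sub_re, abs_lt]
          constructor <;> linarith
        linarith
      have hopen : IsOpen {s : ℂ | 1 < s.re} := isOpen_lt continuous_const Complex.continuous_re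
      have h1 : h0 =ᶠ[𝓝 t] fun z => (z - t0) ^ (n - m) * R z := by
        filter_upwards [hopen.mem_nhds hre] with z hz
        exact hright z hz
      have h2 : DifferentiableAt ℂ R t := hR.differentiableAt (hopen.mem_nhds hre)
      refine DifferentiableAt.congr_of_eventuallyEq ?_ h1
      exact ((differentiableAt_id.sub_const t0).pow _).mul h2
  · intro t _ ht
    exact hright t ht

end Pool.Agent.QD
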