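import Pool.Agent.QD.A.AT
import Pool.Agent.QD.F.Quot
import Pool.Agent.QD.F.Ord
import Pool.Agent.QD.F.LocalH
import Pool.Agent.QD.F.Contr
import Pool.Agent.QD.F.Growth
import Pool.Agent.QD.F.MkPole

/-!
# QD, THEOREM D (analytic descent)
-/

namespace Pool.Agent.QD

open NumberField IsDedekindDomain Pool.Agent.HWR

private theorem ext_real {φ ψ : ℂ → ℂ} (hφ : Continuous φ) (hψ : Continuous ψ) {β : ℝ}
    (h : ∀ s : ℂ, s.re < β → s.im ≠ 0 → φ s = ψ s) : ∀ s : ℂ, s.re < β → φ s = ψ s := by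
  intro s hs
  by_cases him : s.im = 0
  · have h1 : Continuous fun x : ℝ => φ (s + (x : ℂ) * Complex.I) := by fun_prop
    have h2 : Continuous fun x : ℝ => ψ (s + (x : ℂ) * Complex.I) := by fun_prop
    have h3 := Continuous.ext_on (dense_compl_singleton (0 : ℝ)) h1 h2 fun x hx => by
      have hx' : x ≠ 0 := hx
      refine h _ ?_ ?_
      · simpa using hs
      · simpa [him] using hx'
    have h4 := congrFun h3 0
    simpa using h4
  · exact h s hs him

theorem descent (K : Type) [Field K] [NumberField K] (T : Finset ℕ) (hTp : ∀ p ∈ T, p.Prime)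
    (hT : ∀ p : ℕ, p.Prime → p < 101 → p ∈ T) (D : LocData T) (a : ℕ → ℝ)
    (ha : ∀ q : ℕ, |a q| ≤ 2 * Real.sqrt q) (ha2 : SqRel K T a)
    (H : ∀ (K' : Type) [Field K'] [NumberField K'] [Algebra K K'], Module.finrank K K' = 2 →
      D.HW a K') (hM : D.MER a K) : D.HW a K := by
  obtain ⟨f, g, hf, hg, hfo, hgo, hgne, ⟨c, hc, k0, hlow⟩, hfg, hfe⟩ := hM
  have hg0 : ∃ s, g s ≠ 0 := ⟨2, hgne 2 (by norm_num)⟩
  have hw := w_ne K T D
  obtain ⟨R, hR, hRL⟩ := right_half K T hTp hT D a ha H
  have hfR : ∀ s : ℂ, 3 / 2 < s.re → f s = g s * R s := fun s hs => by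
    rw [hRL s hs, hfg s hs]
  obtain ⟨hfR', hright⟩ := ord_right hf hg hR hfR
  have hleft := ord_left hf hg hg0 hw hfe hright
  have hall : ∀ z : ℂ, analyticOrderAt g z ≤ analyticOrderAt f z := by
    intro z
    rcases lt_trichotomy z.re 1 with h | h | h
    · exact hleft z h
    · by_contra hbad
      obtain ⟨k, r, h0, hk, hr, hr', hne, hd, heq⟩ := local_h hf hg hg0 hR hfR' h hbad
      obtain ⟨S, hS, c1, c2, v0, F, Phi, h1, h2, hv0, hF, hLs, hM1, hM2, hMne, hGne, hGG⟩ :=
        inst K T hTp hT D a ha ha2 H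
      obtain ⟨Tp, hTp', hTt⟩ := mk_pole K T hTp hT D a ha S F hF hLs R hRL h hk hr hr' hne hd heq
      have hq := nrm_away K T hT v0 hv0
      have hq0 : (nrm v0 : ℂ) ≠ 0 := by
        have : nrm v0 ≠ 0 := by omega
        exact_mod_cast this
      have hd1 : Differentiable ℂ (fun w : ℂ => (Real.sqrt (nrm v0) : ℂ) *
          (1 + (nrm v0 : ℂ) ^ (w - 3 / 2))) := by
        intro w
        refine DifferentiableAt.const_mul (DifferentiableAt.const_add _ ?_) _
        exact DifferentiableAt.const_cpow (by fun_prop) (Or.inl hq0)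
      have hd2 : Differentiable ℂ (fun w : ℂ => 1 + (nrm v0 : ℂ) ^ (w - 1 / 2)) := by
        intro w
        refine DifferentiableAt.const_add _ ?_
        exact DifferentiableAt.const_cpow (by fun_prop) (Or.inl hq0)
      obtain ⟨β, hβ⟩ := theorem_AT hS hTp' c1 c2 h1 h2 _ _ Phi hd1 hd2 hM1 hM2 hMne
      obtain ⟨b0, hb0⟩ := hGne
      refine contr (q := nrm v0) hq (ha (nrm v0)) h (β := min β (min b0 (1 / 2))) ?_
      have cp : ∀ {f : ℂ → ℂ}, Continuous f → Continuous fun s => (nrm v0 : ℂ) ^ (f s) :=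
        fun hf => hf.const_cpow (Or.inl hq0)
      have k1 : Continuous fun s : ℂ => (nrm v0 : ℂ) ^ (-s) := cp (by fun_prop)
      have k2 : Continuous fun s : ℂ => (nrm v0 : ℂ) ^ (1 - 2 * s) := cp (by fun_prop)
      have k3 : Continuous fun s : ℂ => (nrm v0 : ℂ) ^ (z + s - 3 / 2 - 3 / 2) := cp (by fun_prop)
      have k4 : Continuous fun s : ℂ => (nrm v0 : ℂ) ^ (z - s + 1 / 2 - 1 / 2) := cp (by fun_prop)
      have k5 : Continuous fun s : ℂ => (nrm v0 : ℂ) ^ (1 - s) := cp (by fun_prop)
      have k6 : Continuous fun s : ℂ => (nrm v0 : ℂ) ^ (3 - 2 * s) := cp (by fun_prop)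
      have k7 : Continuous fun s : ℂ => (nrm v0 : ℂ) ^ (z + s - 3 / 2 - 1 / 2) := cp (by fun_prop)
      have k8 : Continuous fun s : ℂ => (nrm v0 : ℂ) ^ (z - s + 1 / 2 - 3 / 2) := cp (by fun_prop)
      refine ext_real (by fun_prop) (by fun_prop) ?_
      intro s hs him
      have hs1 : s.re < β := lt_of_lt_of_le hs (min_le_left _ _)
      have hs3 : s.re < b0 := lt_of_lt_of_le hs ((min_le_right _ _).trans (min_le_left _ _))
      have hs2 : s.re < 1 / 2 := lt_of_lt_of_le hs ((min_le_right _ _).trans (min_le_right _ _))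
      have e1 := hβ s hs1
      rw [hTt] at e1
      have e2 := hGG s hs2
      have e3 := hb0 s hs3 him
      apply mul_left_cancel₀ e3
      linear_combination (1 + (a (nrm v0) : ℂ) * (nrm v0 : ℂ) ^ (1 - s) +
        (nrm v0 : ℂ) ^ (3 - 2 * s)) * e1 -
        ((Real.sqrt (nrm v0) : ℂ) * (1 + (nrm v0 : ℂ) ^ (z + s - 3 / 2 - 3 / 2))) *
          (1 + (nrm v0 : ℂ) ^ (z - s + 1 / 2 - 1 / 2)) * e2
    · exact hright z h
  obtain ⟨h, hh, hfgh⟩ := entire_quot hf hg hg0 hall
  have hord := finOrd_quot hf hg hh hfo hgo hfgh hc hlow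
  refine ⟨h, hh, hord, ?_, ?_⟩
  · -- functional equation
    have key : ∀ s : ℂ, g s * g (2 - s) * (h s - D.w K * h (2 - s)) = 0 := by
      intro s
      have e1 := hfe s
      rw [hfgh s, hfgh (2 - s)] at e1
      linear_combination e1
    have hcont : Continuous fun s : ℂ => h s - D.w K * h (2 - s) := by
      have := hh.continuous
      fun_prop
    have han : AnalyticOnNhd ℂ (fun s : ℂ => g s * g (2 - s)) Set.univ := by
      have : Differentiable ℂ (fun s : ℂ => g s * g (2 - s)) := by fun_prop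
      exact this.differentiableOn.analyticOnNhd isOpen_univ
    have han2 : AnalyticOnNhd ℂ (fun s : ℂ => h s - D.w K * h (2 - s)) Set.univ := by
      have : Differentiable ℂ (fun s : ℂ => h s - D.w K * h (2 - s)) := by fun_prop
      exact this.differentiableOn.analyticOnNhd isOpen_univ
    rcases AnalyticOnNhd.eq_zero_or_eq_zero_of_mul_eq_zero han han2 (fun z _ => key z)
      isPreconnected_univ with h1 | h1
    · exfalso
      have a1 : AnalyticOnNhd ℂ g Set.univ := hg.differentiableOn.analyticOnNhd isOpen_univ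
      have a2 : AnalyticOnNhd ℂ (fun s : ℂ => g (2 - s)) Set.univ := by
        have : Differentiable ℂ (fun s : ℂ => g (2 - s)) := by fun_prop
        exact this.differentiableOn.analyticOnNhd isOpen_univ
      rcases AnalyticOnNhd.eq_zero_or_eq_zero_of_mul_eq_zero a1 a2 h1
        isPreconnected_univ with h2 | h2
      · exact hgne 2 (by norm_num) (h2 2 (Set.mem_univ _))
      · refine hgne 2 (by norm_num) ?_
        have := h2 0 (Set.mem_univ _)
        simpa using this
    · intro s
      have := h1 s (Set.mem_univ _)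
      linear_combination this
  · intro s hs
    have e1 := hfg s hs
    rw [hfgh s] at e1
    exact (mul_left_cancel₀ (hgne s hs) e1).symm

end Pool.Agent.QD
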